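import Mathlib

/-!
# Few discriminants with many small prime divisors
-/

set_option autoImplicit false

open Finset

namespace Pool.Agent.Helper80.TL

theorem card_dvd (p Y : ℕ) (hp : 0 < p) :
    #{D ∈ (Icc (-(Y : ℤ)) Y).erase 0 | (p : ℤ) ∣ D} ≤ 2 * (Y / p) := by
  have h1 : {D ∈ (Icc (-(Y : ℤ)) Y).erase 0 | (p : ℤ) ∣ D} ⊆
      ((Ioc 0 (Y / p)).image fun j : ℕ => (p : ℤ) * j) ∪
        ((Ioc 0 (Y / p)).image fun j : ℕ => -((p : ℤ) * j)) := by
    intro D hD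
    rw [mem_filter, mem_erase, mem_Icc] at hD
    obtain ⟨⟨h0, h1, h2⟩, e, he⟩ := hD
    rw [mem_union, mem_image, mem_image]
    have hpp : (0 : ℤ) < p := by exact_mod_cast hp
    rcases lt_trichotomy e 0 with h | h | h
    · right
      refine ⟨(-e).toNat, ?_, ?_⟩
      · rw [mem_Ioc]
        refine ⟨by omega, ?_⟩
        rw [Nat.le_div_iff_mul_le hp]
        have h3 : (((-e).toNat * p : ℕ) : ℤ) ≤ Y := by
          push_cast
          rw [Int.toNat_of_nonneg (by omega)]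
          nlinarith
        exact_mod_cast h3
      · rw [Int.toNat_of_nonneg (by omega)]
        rw [he]
        ring
    · rw [h, mul_zero] at he
      exact absurd he h0
    · left
      refine ⟨e.toNat, ?_, ?_⟩
      · rw [mem_Ioc]
        refine ⟨by omega, ?_⟩
        rw [Nat.le_div_iff_mul_le hp]
        have h3 : ((e.toNat * p : ℕ) : ℤ) ≤ Y := by
          push_cast
          rw [Int.toNat_of_nonneg (by omega)]
          nlinarith
        exact_mod_cast h3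
      · rw [Int.toNat_of_nonneg (by omega)]
        exact he.symm
  refine (card_le_card h1).trans ((card_union_le _ _).trans ?_)
  have h2 := card_image_le (s := Ioc 0 (Y / p)) (f := fun j : ℕ => (p : ℤ) * j)
  have h3 := card_image_le (s := Ioc 0 (Y / p)) (f := fun j : ℕ => -((p : ℤ) * j))
  rw [Nat.card_Ioc] at h2 h3
  omega

/-- **few discriminants with many small prime divisors** -/
theorem count_div (z Y : ℕ) (P : Finset ℕ) (hP : ∀ p ∈ P, p.Prime ∧ p ≤ z) (DD : Finset ℤ)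
    (hD : ∀ D ∈ DD, D ≠ 0 ∧ D.natAbs ≤ Y) (V : ℝ)
    (h : ∀ D ∈ DD, V ≤ #(P.filter fun p : ℕ => (p : ℤ) ∣ D)) :
    (#DD : ℝ) * V ≤ 2 * Y * (1 + Real.log z) := by
  classical
  have hsub : DD ⊆ (Icc (-(Y : ℤ)) Y).erase 0 := by
    intro D hDD
    have := hD D hDD
    rw [mem_erase, mem_Icc]
    omega
  have h1 : (#DD : ℝ) * V ≤ ∑ D ∈ (Icc (-(Y : ℤ)) Y).erase 0, ((#(P.filter fun p : ℕ => (p : ℤ) ∣ D) : ℕ) : ℝ) := by
    have h2 : (#DD : ℝ) * V = ∑ D ∈ DD, V := by rw [sum_const, nsmul_eq_mul]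
    rw [h2]
    exact (sum_le_sum h).trans (sum_le_sum_of_subset_of_nonneg hsub fun D _ _ => Nat.cast_nonneg _)
  have h2 : ∑ D ∈ (Icc (-(Y : ℤ)) Y).erase 0, ((#(P.filter fun p : ℕ => (p : ℤ) ∣ D) : ℕ) : ℝ) =
      ∑ p ∈ P, (#{D ∈ (Icc (-(Y : ℤ)) Y).erase 0 | (p : ℤ) ∣ D} : ℝ) := by
    have h3 : ∀ D ∈ (Icc (-(Y : ℤ)) Y).erase 0, ((#(P.filter fun p : ℕ => (p : ℤ) ∣ D) : ℕ) : ℝ) =
        ∑ p ∈ P, if (p : ℤ) ∣ D then (1 : ℝ) else 0 := by
      intro D _
      rw [card_filter]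
      push_cast
      rfl
    rw [sum_congr rfl h3, sum_comm]
    refine sum_congr rfl fun p _ => ?_
    rw [card_filter]
    push_cast
    rfl
  have h3 : ∀ p ∈ P, (#{D ∈ (Icc (-(Y : ℤ)) Y).erase 0 | (p : ℤ) ∣ D} : ℝ) ≤ 2 * Y * (p : ℝ)⁻¹ := by
    intro p hp
    have hp0 := (hP p hp).1.pos
    have h4 : (#{D ∈ (Icc (-(Y : ℤ)) Y).erase 0 | (p : ℤ) ∣ D} : ℝ) ≤ ((2 * (Y / p) : ℕ) : ℝ) := by
      exact_mod_cast card_dvd p Y hp0
    refine h4.trans ?_
    push_cast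
    have h5 : ((Y / p : ℕ) : ℝ) ≤ (Y : ℝ) / p := Nat.cast_div_le
    rw [div_eq_mul_inv] at h5
    linarith
  have h4 : ∑ p ∈ P, (p : ℝ)⁻¹ ≤ 1 + Real.log z := by
    have h5 : ∑ p ∈ P, (p : ℝ)⁻¹ ≤ ∑ i ∈ range z, ((i + 1 : ℕ) : ℝ)⁻¹ := by
      have h6 : ∑ p ∈ P, (p : ℝ)⁻¹ ≤ ∑ p ∈ (range z).image (fun i : ℕ => i + 1), (p : ℝ)⁻¹ := by
        refine sum_le_sum_of_subset_of_nonneg ?_ fun p _ _ => by positivity
        intro p hp
        have h7 := hP p hp
        have h8 := h7.1.pos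
        rw [mem_image]
        exact ⟨p - 1, by rw [mem_range]; omega, by omega⟩
      rwa [sum_image fun a _ b _ hab => by omega] at h6
    refine h5.trans ?_
    have h6 := harmonic_le_one_add_log z
    unfold harmonic at h6
    push_cast at h6
    push_cast
    exact h6
  rw [h2] at h1
  refine h1.trans ((sum_le_sum h3).trans ?_)
  rw [← mul_sum]
  exact mul_le_mul_of_nonneg_left h4 (by positivity)

end Pool.Agent.Helper80.TL
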