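import Pool.Agent.Helper80.TL.Dasp
import Pool.Agent.Helper80.TL.Div

/-!
# Small primes: the union bounds
-/

set_option autoImplicit false

open Finset

namespace Pool.Agent.Helper80.TL

open Pool.Agent.Helper70.TW (psi)

theorem log_pow_le (m : ℕ) : ∃ K : ℝ, 0 < K ∧ ∀ x : ℝ, 1 ≤ x → Real.log x ^ m ≤ K * √x := by
  refine ⟨(2 * m + 2) ^ m, by positivity, fun x hx => ?_⟩
  obtain ⟨e, he⟩ : ∃ e : ℝ, e = 1 / (2 * m + 2) := ⟨_, rfl⟩
  have he0 : 0 < e := by rw [he]; positivity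
  have h1 := Real.log_le_rpow_div (by linarith : (0 : ℝ) ≤ x) he0
  have h2 := pow_le_pow_left₀ (Real.log_nonneg hx) h1 m
  refine h2.trans ?_
  rw [div_pow, div_eq_mul_inv, mul_comm]
  have h3 : (e ^ m)⁻¹ = (2 * m + 2) ^ m := by
    rw [he, one_div, inv_pow, inv_inv]
  rw [h3]
  refine mul_le_mul_of_nonneg_left ?_ (by positivity)
  rw [← Real.rpow_natCast, ← Real.rpow_mul (by linarith), Real.sqrt_eq_rpow]
  refine Real.rpow_le_rpow_of_exponent_le hx ?_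
  rw [he, one_div, inv_mul_le_iff₀ (by positivity)]
  linarith

theorem tele {x : ℕ} (hx : 1 ≤ x) :
    1 / ((x : ℝ) * √x) ≤ 6 * (1 / √(x : ℝ) - 1 / √((x : ℝ) + 1)) := by
  have hx' : (1 : ℝ) ≤ x := by exact_mod_cast hx
  obtain ⟨a, ha⟩ : ∃ a, a = √(x : ℝ) := ⟨_, rfl⟩
  obtain ⟨b, hb⟩ : ∃ b, b = √((x : ℝ) + 1) := ⟨_, rfl⟩
  have ha2 : a ^ 2 = x := by rw [ha]; exact Real.sq_sqrt (by linarith)
  have hb2 : b ^ 2 = x + 1 := by rw [hb]; exact Real.sq_sqrt (by linarith)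
  have ha0 : 0 < a := by rw [ha]; exact Real.sqrt_pos.2 (by linarith)
  have hb0 : 0 < b := by rw [hb]; exact Real.sqrt_pos.2 (by linarith)
  have hba : b ≤ 3 / 2 * a := by
    apply le_of_sq_le_sq _ (by positivity)
    nlinarith
  rw [← ha, ← hb, ← ha2]
  have h1 : 6 * (1 / a - 1 / b) = 6 / (a * b * (a + b)) := by
    have h2 : (b - a) * (a + b) = 1 := by nlinarith
    have h3 : b - a = 1 / (a + b) := by
      rw [eq_div_iff (by positivity)]
      exact h2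
    have h4 : 1 / a - 1 / b = (b - a) / (a * b) := by field_simp
    rw [h4, h3]
    field_simp
  rw [h1, div_le_div_iff₀ (by positivity) (by positivity), one_mul]
  have h2 : b * (a + b) ≤ 6 * a ^ 2 := by nlinarith
  nlinarith

theorem sum_tele (X0 : ℕ) (hX0 : 1 ≤ X0) (I : Finset ℕ) (hI : ∀ x ∈ I, X0 ≤ x) :
    ∑ x ∈ I, 1 / ((x : ℝ) * √x) ≤ 6 / √(X0 : ℝ) := by
  obtain ⟨N, hN⟩ : ∃ N, ∀ x ∈ I, x < N := ⟨I.sup id + 1, fun x hx => by
    have := le_sup (f := id) hx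
    simp only [id] at this
    omega⟩
  have h1 : ∑ x ∈ I, 1 / ((x : ℝ) * √x) ≤ ∑ x ∈ Ico X0 (X0 + N), 1 / ((x : ℝ) * √x) := by
    refine sum_le_sum_of_subset_of_nonneg (fun x hx => ?_) fun x _ _ => by positivity
    rw [mem_Ico]
    have := hI x hx
    have := hN x hx
    omega
  refine h1.trans ?_
  have h2 : ∀ M : ℕ, ∑ x ∈ Ico X0 (X0 + M), 1 / ((x : ℝ) * √x) ≤
      6 * (1 / √(X0 : ℝ) - 1 / √((X0 + M : ℕ) : ℝ)) := by
    intro M
    induction M with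
    | zero => simp
    | succ M ih =>
      rw [← add_assoc, sum_Ico_succ_top (by omega)]
      have h3 := tele (x := X0 + M) (by omega)
      push_cast at h3 ih ⊢
      linarith
  have h3 := h2 N
  have h4 : 0 ≤ 1 / √((X0 + N : ℕ) : ℝ) := by positivity
  have h5 : 6 / √(X0 : ℝ) = 6 * (1 / √(X0 : ℝ)) := by ring
  rw [h5]
  linarith

/-- **the small primes** -/
theorem small (A : ℕ) : ∃ C : ℝ, ∀ (P : ℕ → Finset ℕ)
    (_ : ∀ x, ∀ p ∈ P x, p.Prime ∧ Odd p ∧ p ≤ x) (c : ℕ → ℕ → ℝ) (_ : ∀ t p, |c t p| ≤ 1)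
    (Y X0 : ℕ), 1 ≤ X0 → 1 ≤ Y → ∀ DD : Finset ℤ, (∀ D ∈ DD, D.natAbs ≤ Y ∧ ∃ x t : ℕ,
      X0 ≤ x ∧ 2 ≤ x ∧ x ^ 18 ≤ Y ∧ t ≤ 2 * x + 2 ∧
      (x : ℝ) / (Real.log x) ^ A ≤ |∑ p ∈ P x, c t p * (psi D p : ℝ)|) →
    (#DD : ℝ) ≤ C * (Y / √X0 + √Y) := by
  classical
  obtain ⟨K, hK0, hK⟩ := log_pow_le (6 * A)
  refine ⟨60000 * K, fun P hP c hc Y X0 hX0 hY DD hDD => ?_⟩
  have hYR : (1 : ℝ) ≤ Y := by exact_mod_cast hY
  obtain ⟨I, hI⟩ : ∃ I : Finset ℕ,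
    I = {x ∈ range (Y + 1) | X0 ≤ x ∧ 2 ≤ x ∧ x ^ 18 ≤ Y} := ⟨_, rfl⟩
  obtain ⟨E, hE⟩ : ∃ E : ℕ → ℕ → Finset ℤ, E = fun (x t : ℕ) =>
    {D ∈ DD | (x : ℝ) / (Real.log x) ^ A ≤ |∑ p ∈ P x, c t p * (psi D p : ℝ)|} := ⟨_, rfl⟩
  have hcov : DD ⊆ I.biUnion fun x => (range (2 * x + 3)).biUnion fun t => E x t := by
    intro D hD
    obtain ⟨_, x, t, h1, h2, h3, h4, h5⟩ := hDD D hD
    rw [mem_biUnion]
    refine ⟨x, ?_, ?_⟩
    · rw [hI, mem_filter, mem_range]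
      have : x ≤ x ^ 18 := Nat.le_self_pow (by norm_num) x
      exact ⟨by omega, h1, h2, h3⟩
    · rw [mem_biUnion]
      refine ⟨t, by rw [mem_range]; omega, ?_⟩
      rw [hE]
      exact mem_filter.2 ⟨hD, h5⟩
  have hcard : (#DD : ℝ) ≤ ∑ x ∈ I, ∑ t ∈ range (2 * x + 3), (#(E x t) : ℝ) := by
    have h1 : #DD ≤ ∑ x ∈ I, ∑ t ∈ range (2 * x + 3), #(E x t) := by
      refine (card_le_card hcov).trans (card_biUnion_le.trans ?_)
      exact sum_le_sum fun x _ => card_biUnion_le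
    exact_mod_cast h1
  -- one term
  have hone : ∀ x ∈ I, ∀ t, (#(E x t) : ℝ) ≤ K * √x * (2187 * Y / x ^ 3 + x ^ 6) := by
    intro x hx t
    rw [hI, mem_filter] at hx
    have hx2 : (2 : ℝ) ≤ x := by exact_mod_cast hx.2.2.1
    have hx0 : (0 : ℝ) < x := by linarith
    have hl0 : 0 < Real.log x := Real.log_pos (by linarith)
    have h1 := count_small 3 x Y (P x) (hP x) (c t) (fun p _ => hc t p) (E x t)
      (fun D hD => by rw [hE] at hD; exact (hDD D (mem_filter.1 hD).1).1)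
      (x / (Real.log x) ^ A) (by positivity)
      (fun D hD => by rw [hE] at hD; exact (mem_filter.1 hD).2)
    have hPx : (#(P x) : ℝ) ≤ x := by
      have h2 : P x ⊆ Ioc 0 x := by
        intro p hp
        have := hP x p hp
        rw [mem_Ioc]
        exact ⟨this.1.pos, this.2.2⟩
      have h3 := card_le_card h2
      rw [Nat.card_Ioc] at h3
      exact_mod_cast h3
    have h2 : (#(E x t) : ℝ) * (x / (Real.log x) ^ A) ^ 6 ≤ 729 * x ^ 3 * (3 * Y) + x ^ 12 := by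
      have h3 : (#(P x) : ℝ) ^ 3 ≤ x ^ 3 := pow_le_pow_left₀ (by positivity) hPx 3
      have h4 : (#(P x) : ℝ) ^ 6 ≤ x ^ 6 := pow_le_pow_left₀ (by positivity) hPx 6
      norm_num at h1
      refine h1.trans ?_
      have h5 : 729 * (#(P x) : ℝ) ^ 3 * (2 * Y + 1) ≤ 729 * x ^ 3 * (3 * Y) := by
        have h6 : (2 : ℝ) * Y + 1 ≤ 3 * Y := by linarith
        have h7 : 729 * (#(P x) : ℝ) ^ 3 ≤ 729 * x ^ 3 := by linarith
        exact mul_le_mul h7 h6 (by positivity) (by positivity)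
      have h6 : (#(P x) : ℝ) ^ 6 * x ^ 6 ≤ x ^ 6 * x ^ 6 :=
        mul_le_mul_of_nonneg_right h4 (by positivity)
      have h7 : (x : ℝ) ^ 6 * x ^ 6 = x ^ 12 := by ring
      linarith
    rw [div_pow, ← pow_mul, mul_comm A 6] at h2
    have h3 : (#(E x t) : ℝ) ≤ Real.log x ^ (6 * A) * (2187 * Y / x ^ 3 + x ^ 6) := by
      have hl : 0 < Real.log x ^ (6 * A) := by positivity
      rw [mul_div_assoc', div_le_iff₀ hl] at h2
      have h4 : Real.log x ^ (6 * A) * (2187 * Y / x ^ 3 + x ^ 6) =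
          ((729 * x ^ 3 * (3 * Y) + x ^ 12) * Real.log x ^ (6 * A)) / (x : ℝ) ^ 6 := by
        field_simp
        ring
      rw [h4, le_div_iff₀ (by positivity)]
      exact h2
    exact h3.trans (mul_le_mul_of_nonneg_right (hK x (by linarith)) (by positivity))
  have hsum : ∀ x ∈ I, ∑ t ∈ range (2 * x + 3), (#(E x t) : ℝ) ≤
      4 * K * (2187 * Y + √Y) * (1 / ((x : ℝ) * √x)) := by
    intro x hx
    have h1 := sum_le_sum fun t (_ : t ∈ range (2 * x + 3)) => hone x hx t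
    refine h1.trans ?_
    rw [sum_const, card_range, nsmul_eq_mul]
    rw [hI, mem_filter] at hx
    have hx2 : (2 : ℝ) ≤ x := by exact_mod_cast hx.2.2.1
    have hx0 : (0 : ℝ) < x := by linarith
    obtain ⟨a, ha⟩ : ∃ a, a = √(x : ℝ) := ⟨_, rfl⟩
    have ha0 : 0 < a := by rw [ha]; exact Real.sqrt_pos.2 hx0
    have ha2 : a ^ 2 = x := by rw [ha]; exact Real.sq_sqrt hx0.le
    have h9 : (x : ℝ) ^ 9 ≤ √Y := by
      apply Real.le_sqrt_of_sq_le
      rw [← pow_mul]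
      exact_mod_cast hx.2.2.2
    have h2 : (((2 * x + 3 : ℕ) : ℕ) : ℝ) ≤ 4 * x := by
      push_cast
      linarith
    have h3 : (((2 * x + 3 : ℕ) : ℕ) : ℝ) * (K * √x * (2187 * Y / x ^ 3 + x ^ 6)) ≤
        4 * x * (K * √x * (2187 * Y / x ^ 3 + x ^ 6)) :=
      mul_le_mul_of_nonneg_right h2 (by positivity)
    refine h3.trans ?_
    have h4 : 4 * x * (K * √x * (2187 * Y / x ^ 3 + x ^ 6)) =
        4 * K * (2187 * Y + x ^ 9) * (1 / ((x : ℝ) * √x)) := by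
      rw [← ha, ← ha2]
      field_simp
    rw [h4]
    refine mul_le_mul_of_nonneg_right ?_ (by positivity)
    refine mul_le_mul_of_nonneg_left ?_ (by positivity)
    linarith
  refine hcard.trans ((sum_le_sum hsum).trans ?_)
  rw [← mul_sum]
  have h1 := sum_tele X0 hX0 I fun x hx => by
    rw [hI, mem_filter] at hx
    exact hx.2.1
  have hX : 0 < √(X0 : ℝ) := Real.sqrt_pos.2 (by exact_mod_cast hX0)
  refine (mul_le_mul_of_nonneg_left h1 (by positivity)).trans ?_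
  have hsY : 0 ≤ √(Y : ℝ) := Real.sqrt_nonneg _
  have hX1 : 1 ≤ √(X0 : ℝ) := by
    rw [← Real.sqrt_one]
    exact Real.sqrt_le_sqrt (by exact_mod_cast hX0)
  have h2 : 4 * K * (2187 * Y + √Y) * (6 / √X0) =
      24 * K * (2187 * (Y / √X0) + √Y / √X0) := by
    field_simp
    ring
  rw [h2]
  have h3 : √(Y : ℝ) / √X0 ≤ √Y := div_le_self hsY hX1
  have h4 : 0 ≤ (Y : ℝ) / √X0 := by positivity
  nlinarith

end Pool.Agent.Helper80.TL
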