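import Pool.Agent.Helper80.TL.Small

/-!
# Small prime divisors of the discriminants: the union bound
-/

set_option autoImplicit false

open Finset

namespace Pool.Agent.Helper80.TL

theorem geo (j0 : ℕ) (N : ℕ) :
    ∑ j ∈ Ico j0 (j0 + N), 1 / √((2 : ℝ) ^ j) ≤ 4 / √((2 : ℝ) ^ j0) := by
  have hstep : ∀ j : ℕ, 1 / √((2 : ℝ) ^ j) ≤
      4 * (1 / √((2 : ℝ) ^ j) - 1 / √((2 : ℝ) ^ (j + 1))) := by
    intro j
    obtain ⟨a, ha⟩ : ∃ a, a = √((2 : ℝ) ^ j) := ⟨_, rfl⟩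
    have ha0 : 0 < a := by rw [ha]; exact Real.sqrt_pos.2 (by positivity)
    have h1 : √((2 : ℝ) ^ (j + 1)) = a * √2 := by
      rw [pow_succ, Real.sqrt_mul (by positivity), ha]
    rw [h1, ← ha]
    have h2 : (4 : ℝ) / 3 ≤ √2 := by
      apply Real.le_sqrt_of_sq_le
      norm_num
    have h3 : 1 / (a * √2) ≤ 3 / 4 * (1 / a) := by
      rw [div_le_iff₀ (by positivity)]
      have h4 : 3 / 4 * (1 / a) * (a * √2) = 3 / 4 * √2 := by field_simp
      rw [h4]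
      linarith
    linarith
  have h : ∀ M : ℕ, ∑ j ∈ Ico j0 (j0 + M), 1 / √((2 : ℝ) ^ j) ≤
      4 * (1 / √((2 : ℝ) ^ j0) - 1 / √((2 : ℝ) ^ (j0 + M))) := by
    intro M
    induction M with
    | zero => simp
    | succ M ih =>
      rw [← add_assoc, sum_Ico_succ_top (by omega)]
      have h3 := hstep (j0 + M)
      linarith
  have h1 := h N
  have h2 : 0 ≤ 1 / √((2 : ℝ) ^ (j0 + N)) := by positivity
  have h3 : 4 / √((2 : ℝ) ^ j0) = 4 * (1 / √((2 : ℝ) ^ j0)) := by ring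
  rw [h3]
  linarith

/-- **small prime divisors** -/
theorem small_div (A : ℕ) : ∃ C : ℝ, ∀ (P : ℕ → Finset ℕ)
    (_ : ∀ x, ∀ p ∈ P x, p.Prime ∧ p ≤ x) (Y X0 : ℕ), 1 ≤ X0 → ∀ DD : Finset ℤ,
    (∀ D ∈ DD, D ≠ 0 ∧ D.natAbs ≤ Y ∧ ∃ x : ℕ, X0 ≤ x ∧ 2 ≤ x ∧
      (x : ℝ) / (Real.log x) ^ A ≤ #((P x).filter fun p : ℕ => (p : ℤ) ∣ D)) →
    (#DD : ℝ) ≤ C * (Y / √X0) := by
  classical
  obtain ⟨K, hK0, hK⟩ := log_pow_le (A + 1)
  refine ⟨32 * K, fun P hP Y X0 hX0 DD hDD => ?_⟩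
  obtain ⟨Q, hQ⟩ : ∃ Q : ℕ → Finset ℕ, Q = fun j => {p ∈ range (2 ^ j + 1) | p.Prime} := ⟨_, rfl⟩
  obtain ⟨E, hE⟩ : ∃ E : ℕ → Finset ℤ, E = fun j : ℕ =>
    {D ∈ DD | (2 : ℝ) ^ j / 2 / (Real.log ((2 : ℝ) ^ j)) ^ A ≤
      #((Q j).filter fun p : ℕ => (p : ℤ) ∣ D)} := ⟨_, rfl⟩
  have hex : ∀ D ∈ DD, ∃ j : ℕ, 2 ≤ j ∧ X0 < 2 ^ j ∧ D ∈ E j := by
    intro D hD
    obtain ⟨h0, hDY, x, hx0, hx2, hx⟩ := hDD D hD
    have h1 : x < 2 ^ (Nat.log 2 x + 1) := Nat.lt_pow_succ_log_self (by norm_num) x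
    have h2 : 2 ^ Nat.log 2 x ≤ x := Nat.pow_log_le_self 2 (by omega)
    have h3 : 1 ≤ Nat.log 2 x := Nat.log_pos (by norm_num) hx2
    refine ⟨Nat.log 2 x + 1, by omega, by omega, ?_⟩
    rw [hE, mem_filter]
    refine ⟨hD, ?_⟩
    have hx2' : (2 : ℝ) ≤ x := by exact_mod_cast hx2
    have hl0 : 0 < Real.log x := Real.log_pos (by linarith)
    have h4 : (2 : ℝ) ^ (Nat.log 2 x + 1) / 2 ≤ x := by
      rw [pow_succ]
      have : ((2 ^ Nat.log 2 x : ℕ) : ℝ) ≤ x := by exact_mod_cast h2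
      push_cast at this
      linarith
    have h5 : Real.log x ≤ Real.log ((2 : ℝ) ^ (Nat.log 2 x + 1)) := by
      refine Real.log_le_log (by linarith) ?_
      have : ((x : ℕ) : ℝ) ≤ ((2 ^ (Nat.log 2 x + 1) : ℕ) : ℝ) := by exact_mod_cast h1.le
      push_cast at this
      exact this
    have h6 : (2 : ℝ) ^ (Nat.log 2 x + 1) / 2 / (Real.log ((2 : ℝ) ^ (Nat.log 2 x + 1))) ^ A ≤
        (x : ℝ) / (Real.log x) ^ A := by
      refine div_le_div₀ (by linarith) h4 (by positivity) ?_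
      exact pow_le_pow_left₀ hl0.le h5 A
    refine h6.trans (hx.trans ?_)
    have h7 : ((P x).filter fun p : ℕ => (p : ℤ) ∣ D) ⊆
        ((Q (Nat.log 2 x + 1)).filter fun p : ℕ => (p : ℤ) ∣ D) := by
      intro p hp
      rw [mem_filter] at hp ⊢
      refine ⟨?_, hp.2⟩
      rw [hQ, mem_filter, mem_range]
      have := hP x p hp.1
      exact ⟨by omega, this.1⟩
    exact_mod_cast card_le_card h7
  choose! jj hj using hex
  obtain ⟨N, hN⟩ : ∃ N, ∀ D ∈ DD, jj D < N := ⟨DD.sup jj + 1, fun D hD => by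
    have := le_sup (f := jj) hD
    omega⟩
  obtain ⟨j0, hj0⟩ : ∃ j0, j0 = Nat.log 2 X0 + 1 := ⟨_, rfl⟩
  have hX2 : X0 < 2 ^ j0 := by
    rw [hj0]
    exact Nat.lt_pow_succ_log_self (by norm_num) X0
  have hcov : DD ⊆ ((Ico j0 (j0 + N)).filter fun j => 2 ≤ j).biUnion E := by
    intro D hD
    obtain ⟨h1, h2, h3⟩ := hj D hD
    rw [mem_biUnion]
    refine ⟨jj D, ?_, h3⟩
    rw [mem_filter, mem_Ico]
    have h4 := hN D hD
    have h5 : Nat.log 2 X0 < jj D := Nat.log_lt_of_lt_pow (by omega) h2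
    exact ⟨⟨by omega, by omega⟩, h1⟩
  have hone : ∀ j ∈ (Ico j0 (j0 + N)).filter fun j => 2 ≤ j,
      (#(E j) : ℝ) ≤ 8 * K * Y * (1 / √((2 : ℝ) ^ j)) := by
    intro j hjm
    rw [mem_filter] at hjm
    obtain ⟨L, hL⟩ : ∃ L, L = Real.log ((2 : ℝ) ^ j) := ⟨_, rfl⟩
    have h4 : (4 : ℝ) ≤ 2 ^ j := by
      have : (2 : ℝ) ^ 2 ≤ 2 ^ j := pow_le_pow_right₀ (by norm_num) hjm.2
      norm_num at this
      exact this
    have hL1 : 1 ≤ L := by
      rw [hL, Real.le_log_iff_exp_le (by positivity)]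
      have := Real.exp_one_lt_d9
      linarith
    have h1 := count_div (2 ^ j) Y (Q j) (fun p hp => by
        rw [hQ, mem_filter, mem_range] at hp
        exact ⟨hp.2, by omega⟩) (E j) (fun D hD => by
        rw [hE, mem_filter] at hD
        have := hDD D hD.1
        exact ⟨this.1, this.2.1⟩)
      ((2 : ℝ) ^ j / 2 / (Real.log ((2 : ℝ) ^ j)) ^ A) (fun D hD => by
        rw [hE, mem_filter] at hD
        exact hD.2)
    push_cast at h1
    rw [← hL] at h1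
    have hLA : 0 < L ^ A := by positivity
    obtain ⟨s, hs⟩ : ∃ s, s = √((2 : ℝ) ^ j) := ⟨_, rfl⟩
    have hs0 : 0 < s := by rw [hs]; exact Real.sqrt_pos.2 (by positivity)
    have hs2 : s ^ 2 = 2 ^ j := by rw [hs]; exact Real.sq_sqrt (by positivity)
    have hK1 := hK ((2 : ℝ) ^ j) (by linarith)
    rw [← hL, ← hs, pow_succ] at hK1
    rw [← hs]
    rw [← hs2] at h1
    have h2 : (#(E j) : ℝ) * s ^ 2 ≤ 8 * K * Y * s := by
      have h3 : (#(E j) : ℝ) * (s ^ 2 / 2 / L ^ A) * (2 * L ^ A) = #(E j) * s ^ 2 := by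
        field_simp
      have h5 : (#(E j) : ℝ) * (s ^ 2 / 2 / L ^ A) * (2 * L ^ A) ≤
          2 * Y * (1 + L) * (2 * L ^ A) := mul_le_mul_of_nonneg_right h1 (by positivity)
      rw [h3] at h5
      refine h5.trans ?_
      have h6 : 2 * (Y : ℝ) * (1 + L) * (2 * L ^ A) ≤ 2 * Y * (2 * L) * (2 * L ^ A) := by
        have h7 : 2 * (Y : ℝ) * (1 + L) ≤ 2 * Y * (2 * L) :=
          mul_le_mul_of_nonneg_left (by linarith) (by positivity)
        exact mul_le_mul_of_nonneg_right h7 (by positivity)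
      refine h6.trans ?_
      have h7 : 2 * (Y : ℝ) * (2 * L) * (2 * L ^ A) = 8 * Y * (L ^ A * L) := by ring
      rw [h7]
      have h8 : 8 * (Y : ℝ) * (L ^ A * L) ≤ 8 * Y * (K * s) :=
        mul_le_mul_of_nonneg_left hK1 (by positivity)
      refine h8.trans (le_of_eq (by ring))
    have h3 : 8 * K * Y * (1 / s) = 8 * K * Y * s / s ^ 2 := by field_simp
    rw [h3, le_div_iff₀ (by positivity)]
    exact h2
  have hcard : (#DD : ℝ) ≤ ∑ j ∈ (Ico j0 (j0 + N)).filter fun j => 2 ≤ j, (#(E j) : ℝ) := by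
    exact_mod_cast (card_le_card hcov).trans card_biUnion_le
  refine hcard.trans ((sum_le_sum hone).trans ?_)
  rw [← mul_sum]
  have h1 : ∑ j ∈ (Ico j0 (j0 + N)).filter fun j => 2 ≤ j, 1 / √((2 : ℝ) ^ j) ≤
      4 / √((2 : ℝ) ^ j0) := by
    refine (sum_le_sum_of_subset_of_nonneg (filter_subset _ _) fun j _ _ => by positivity).trans
      (geo j0 N)
  have h2 : 4 / √((2 : ℝ) ^ j0) ≤ 4 / √(X0 : ℝ) := by
    refine div_le_div_of_nonneg_left (by norm_num)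
      (Real.sqrt_pos.2 (by exact_mod_cast hX0)) (Real.sqrt_le_sqrt ?_)
    have : ((X0 : ℕ) : ℝ) ≤ ((2 ^ j0 : ℕ) : ℝ) := by exact_mod_cast hX2.le
    push_cast at this
    exact this
  have h3 := mul_le_mul_of_nonneg_left (h1.trans h2) (by positivity : 0 ≤ 8 * K * (Y : ℝ))
  refine h3.trans (le_of_eq ?_)
  ring

end Pool.Agent.Helper80.TL
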