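import Pool.Agent.Helper70.TW.Jac

/-!
# Moments of quadratic characters, sum over the discriminants
-/

set_option autoImplicit false

open Finset

namespace Pool.Agent.Helper80.TL

open Pool.Agent.Helper70.TW (psi psi_odd psi_mul_right psi_abs_le)

/-- for a nonsquare odd `n` the symbol `(a / n)` takes the value `-1` -/
theorem exists_neg_left {n : ℕ} (hn : Odd n) (hs : ¬ IsSquare n) :
    ∃ a : ℕ, jacobiSym (a : ℤ) n = -1 := by
  have hn0 : n ≠ 0 := by rintro rfl; exact absurd hn (by decide)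
  obtain ⟨c, m, hcm, hc⟩ := Nat.sq_mul_squarefree n
  have hc1 : c ≠ 1 := by
    rintro rfl
    exact hs ⟨m, by rw [← hcm]; ring⟩
  obtain ⟨q, hq, c', rfl⟩ := Nat.exists_prime_and_dvd hc1
  have hm0 : m ≠ 0 := by
    rintro rfl
    apply hn0; rw [← hcm]; ring
  obtain ⟨e, m', hm', hmm⟩ := Nat.exists_eq_pow_mul_and_not_dvd hm0 q hq.ne_one
  have hqc : ¬ q ∣ c' := by
    intro h
    obtain ⟨d, rfl⟩ := h
    have := hc q ⟨d, by ring⟩
    exact hq.one_lt.ne' (Nat.isUnit_iff.1 this)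
  obtain ⟨b, hb⟩ : ∃ b, b = c' * m' ^ 2 := ⟨_, rfl⟩
  have hab : n = q ^ (2 * e + 1) * b := by
    rw [← hcm, hmm, hb]; ring
  have hqb : Nat.Coprime q b := by
    rw [Nat.Prime.coprime_iff_not_dvd hq, hb]
    intro h
    rcases hq.dvd_mul.1 h with h | h
    · exact hqc h
    · exact hm' (hq.dvd_of_dvd_pow h)
  have hb0 : b ≠ 0 := by
    rintro rfl
    rw [mul_zero] at hab; exact hn0 hab
  have hqo : Odd q := by
    rw [hab] at hn
    have h1 := (Nat.odd_mul.1 hn).1
    rw [pow_succ] at h1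
    exact (Nat.odd_mul.1 h1).2
  have hF : Fact q.Prime := ⟨hq⟩
  have hq2 : ringChar (ZMod q) ≠ 2 := by
    rw [ZMod.ringChar_zmod_n]
    rintro rfl
    exact absurd hqo (by decide)
  obtain ⟨r, hr⟩ := FiniteField.exists_nonsquare (F := ZMod q) hq2
  obtain ⟨a, ha1, ha2⟩ := Nat.chineseRemainder hqb r.val 1
  refine ⟨a, ?_⟩
  have hq0 : q ^ (2 * e + 1) ≠ 0 := pow_ne_zero _ hq.ne_zero
  rw [hab, jacobiSym.mul_right' (a : ℤ) hq0 hb0, jacobiSym.pow_right]
  have h1 : jacobiSym (a : ℤ) b = 1 := by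
    have h2 : jacobiSym (a : ℤ) b = jacobiSym 1 b := by
      refine jacobiSym.mod_left' ?_
      have h3 : (a : ℤ) % (b : ℤ) = ((a % b : ℕ) : ℤ) := by push_cast; rfl
      have h4 : (1 : ℤ) % (b : ℤ) = ((1 % b : ℕ) : ℤ) := by push_cast; rfl
      rw [h3, h4, ha2]
    rw [h2, jacobiSym.one_left]
  have h2 : jacobiSym (a : ℤ) q = -1 := by
    rw [← jacobiSym.legendreSym.to_jacobiSym, legendreSym.eq_neg_one_iff]
    have : ((a : ℤ) : ZMod q) = r := by
      have h := (ZMod.natCast_eq_natCast_iff _ _ _).2 ha1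
      rw [ZMod.natCast_val, ZMod.cast_id] at h
      exact_mod_cast h
    rw [this]
    exact hr
  rw [h1, h2, mul_one]
  exact Odd.neg_one_pow ⟨e, rfl⟩

/-- the sum over a full period vanishes -/
theorem sum_period_left {n : ℕ} (hn : Odd n) (hs : ¬ IsSquare n) (z : ℤ) :
    ∑ i ∈ range n, jacobiSym (z + i) n = 0 := by
  have hn0 : n ≠ 0 := by rintro rfl; exact absurd hn (by decide)
  have : NeZero n := ⟨hn0⟩
  obtain ⟨a, ha⟩ := exists_neg_left hn hs
  have hcop : Nat.Coprime a n := by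
    by_contra hne
    have := jacobiSym.eq_zero_iff.2 ⟨hn0, (by rw [Int.gcd_natCast_natCast]; exact hne)⟩
    rw [ha] at this
    exact absurd this (by decide)
  let u0 : (ZMod n)ˣ := ZMod.unitOfCoprime a hcop
  let Ψ : ZMod n → ℤ := fun u => jacobiSym (u.val : ℤ) n
  have hΨ : ∀ m : ℤ, Ψ (m : ZMod n) = jacobiSym m n := by
    intro m
    show jacobiSym ((m : ZMod n).val : ℤ) n = jacobiSym m n
    rw [ZMod.val_intCast, ← jacobiSym.mod_left]
  have hsum : ∑ i ∈ range n, jacobiSym (z + i) n = ∑ u : ZMod n, Ψ u := by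
    refine Finset.sum_bij (fun i _ => ((z + i : ℤ) : ZMod n)) (fun i _ => mem_univ _) ?_ ?_ ?_
    · intro i hi j hj h
      push_cast at h
      have h1 : ((i : ℕ) : ZMod n) = ((j : ℕ) : ZMod n) := add_left_cancel h
      have h2 := (ZMod.natCast_eq_natCast_iff' i j n).1 h1
      rwa [Nat.mod_eq_of_lt (mem_range.1 hi), Nat.mod_eq_of_lt (mem_range.1 hj)] at h2
    · intro u _
      refine ⟨(u - (z : ZMod n)).val, mem_range.2 (ZMod.val_lt _), ?_⟩
      push_cast
      rw [ZMod.natCast_zmod_val]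
      ring
    · intro i _
      exact (hΨ _).symm
  have hneg : ∀ u : ZMod n, Ψ ((u0 : ZMod n) * u) = - Ψ u := by
    intro u
    have h1 : (u0 : ZMod n) * u = (((a : ℤ) * (u.val : ℤ) : ℤ) : ZMod n) := by
      push_cast
      rw [ZMod.natCast_zmod_val]
      rfl
    rw [h1, hΨ, jacobiSym.mul_left, ha]
    show _ = - jacobiSym (u.val : ℤ) n
    ring
  have hS : ∑ u : ZMod n, Ψ ((u0 : ZMod n) * u) = ∑ u : ZMod n, Ψ u :=
    Equiv.sum_comp (Units.mulLeft u0) Ψ
  rw [hsum]
  simp only [hneg] at hS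
  rw [Finset.sum_neg_distrib] at hS
  omega

theorem jac_abs_le (a : ℤ) (n : ℕ) : |jacobiSym a n| ≤ 1 := by
  rcases jacobiSym.trichotomy a n with h | h | h <;> rw [h] <;> decide

/-- the sums over intervals are bounded by the period -/
theorem sum_le_left {n : ℕ} (hn : Odd n) (hs : ¬ IsSquare n) (N : ℕ) :
    ∀ z : ℤ, |∑ i ∈ range N, jacobiSym (z + i) n| ≤ n := by
  induction N using Nat.strong_induction_on with
  | _ N ih =>
    intro z
    rcases lt_or_ge N n with h | h
    · calc |∑ i ∈ range N, jacobiSym (z + i) n| ≤ ∑ i ∈ range N, |jacobiSym (z + i) n| :=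
          Finset.abs_sum_le_sum_abs _ _
        _ ≤ ∑ i ∈ range N, 1 := Finset.sum_le_sum fun i _ => jac_abs_le _ n
        _ = N := by simp
        _ ≤ n := by exact_mod_cast h.le
    · obtain ⟨M, rfl⟩ := Nat.exists_eq_add_of_le h
      have hn0 : 0 < n := by
        rcases Nat.eq_zero_or_pos n with h0 | h0
        · rw [h0] at hn; exact absurd hn (by decide)
        · exact h0
      rw [Finset.sum_range_add, sum_period_left hn hs, zero_add]
      have h1 := ih M (by omega) (z + n)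
      refine le_trans (le_of_eq ?_) h1
      congr 1
      refine sum_congr rfl fun i _ => ?_
      congr 1
      push_cast
      ring

/-- the sum over the discriminants -/
theorem sum_disc {n : ℕ} (hn : Odd n) (hs : ¬ IsSquare n) (Y : ℕ) :
    |∑ D ∈ Icc (-(Y : ℤ)) Y, psi D n| ≤ n := by
  have h1 : ∑ D ∈ Icc (-(Y : ℤ)) Y, psi D n =
      ∑ i ∈ range (2 * Y + 1), jacobiSym (-(Y : ℤ) + i) n := by
    refine Finset.sum_nbij' (fun D => (D + Y).toNat) (fun i => -(Y : ℤ) + i) ?_ ?_ ?_ ?_ ?_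
    · intro D hD
      rw [mem_Icc] at hD
      rw [mem_range]
      omega
    · intro i hi
      rw [mem_range] at hi
      rw [mem_Icc]
      omega
    · intro D hD
      rw [mem_Icc] at hD
      omega
    · intro i hi
      omega
    · intro D hD
      rw [mem_Icc] at hD
      rw [psi_odd hn]
      congr 1
      omega
  rw [h1]
  exact sum_le_left hn hs _ _

/-- tuples of primes whose product is a square have few values -/
theorem card_image_le_of_sq {k : ℕ} (v : Fin (2 * k) → ℕ) (hv : ∀ i, (v i).Prime)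
    (hsq : IsSquare (∏ i, v i)) : #(univ.image v) ≤ k := by
  classical
  have h1 : ∑ q ∈ univ.image v, #{i | v i = q} = 2 * k := by
    have := card_eq_sum_card_image v (univ : Finset (Fin (2 * k)))
    rw [card_univ, Fintype.card_fin] at this
    exact this.symm
  have h2 : ∀ q ∈ univ.image v, 2 ≤ #{i | v i = q} := by
    intro q hq
    obtain ⟨i0, -, hi0⟩ := mem_image.1 hq
    have hpos : 0 < #{i | v i = q} := card_pos.2 ⟨i0, by simpa using hi0⟩
    have hfac : (∏ i, v i).factorization q = #{i | v i = q} := by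
      rw [Nat.factorization_prod fun i _ => (hv i).ne_zero]
      rw [Finsupp.finsetSum_apply, card_filter]
      refine sum_congr rfl fun i _ => ?_
      rw [(hv i).factorization, Finsupp.single_apply]
    obtain ⟨r, hr⟩ := hsq
    have h3 : (∏ i, v i).factorization q = 2 * r.factorization q := by
      rw [hr, ← sq, Nat.factorization_pow]
      rfl
    omega
  have h3 : ∑ q ∈ univ.image v, 2 ≤ 2 * k := (sum_le_sum h2).trans h1.le
  rw [sum_const, smul_eq_mul] at h3
  omega

theorem card_sq (k : ℕ) (P : Finset ℕ) (hP : ∀ p ∈ P, p.Prime) :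
    #{v ∈ Fintype.piFinset (fun _ : Fin (2 * k) => P) | IsSquare (∏ i, v i)} ≤
      k ^ (2 * k) * #P ^ k := by
  classical
  have hsub : {v ∈ Fintype.piFinset (fun _ : Fin (2 * k) => P) | IsSquare (∏ i, v i)} ⊆
      ((univ : Finset (Fin (2 * k) → Fin k)) ×ˢ Fintype.piFinset (fun _ : Fin k => P)).image
        (fun s => s.2 ∘ s.1) := by
    intro v hv
    rw [mem_filter, Fintype.mem_piFinset] at hv
    have hcard := card_image_le_of_sq v (fun i => hP _ (hv.1 i)) hv.2
    rw [mem_image]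
    rcases Nat.eq_zero_or_pos k with h0 | h0
    · subst h0
      refine ⟨(fun i => i, fun i => i.elim0), ?_, ?_⟩
      · rw [mem_product, Fintype.mem_piFinset]
        exact ⟨mem_univ _, fun i => i.elim0⟩
      · funext i
        exact i.elim0
    · obtain ⟨i0⟩ : Nonempty (Fin (2 * k)) := ⟨⟨0, by omega⟩⟩
      obtain ⟨I, hI⟩ : ∃ I, I = univ.image v := ⟨_, rfl⟩
      rw [← hI] at hcard
      obtain ⟨w, hw⟩ : ∃ w : Fin k → ℕ, w = fun j : Fin k =>
        if h : (j : ℕ) < #I then ((I.equivFin.symm ⟨j, h⟩ : I) : ℕ) else v i0 := ⟨_, rfl⟩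
      have hwP : ∀ j, w j ∈ P := by
        intro j
        rw [hw]
        simp only
        split_ifs with h
        · have h1 : ∀ q ∈ I, q ∈ P := by
            intro q hq
            rw [hI] at hq
            obtain ⟨i, -, hi⟩ := mem_image.1 hq
            rw [← hi]
            exact hv.1 i
          exact h1 _ (I.equivFin.symm ⟨j, h⟩).2
        · exact hv.1 i0
      have hsurj : ∀ i, ∃ j, w j = v i := by
        intro i
        have hi : v i ∈ I := by rw [hI]; exact mem_image_of_mem _ (mem_univ _)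
        refine ⟨⟨(I.equivFin ⟨v i, hi⟩ : ℕ), lt_of_lt_of_le (Fin.is_lt _) hcard⟩, ?_⟩
        rw [hw]
        simp only
        rw [dif_pos (Fin.is_lt _)]
        simp
      choose σ hσ using hsurj
      refine ⟨(σ, w), ?_, ?_⟩
      · rw [mem_product, Fintype.mem_piFinset]
        exact ⟨mem_univ _, hwP⟩
      · funext i
        exact hσ i
  refine (card_le_card hsub).trans (card_image_le.trans ?_)
  rw [card_product, card_univ, Fintype.card_fun, Fintype.card_fin, Fintype.card_fin,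
    Fintype.card_piFinset, prod_const, card_univ, Fintype.card_fin]

/-- **few discriminants with a large sum, sum over the discriminants** -/
theorem count_small (k x Y : ℕ) (P : Finset ℕ) (hP : ∀ p ∈ P, p.Prime ∧ Odd p ∧ p ≤ x)
    (c : ℕ → ℝ) (hc : ∀ p ∈ P, |c p| ≤ 1) (DD : Finset ℤ) (hD : ∀ D ∈ DD, D.natAbs ≤ Y)
    (V : ℝ) (hV : 0 ≤ V) (h : ∀ D ∈ DD, V ≤ |∑ p ∈ P, c p * (psi D p : ℝ)|) :
    (#DD : ℝ) * V ^ (2 * k) ≤
      (k : ℝ) ^ (2 * k) * (#P : ℝ) ^ k * (2 * Y + 1) + (#P : ℝ) ^ (2 * k) * (x : ℝ) ^ (2 * k) := by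
  classical
  obtain ⟨T, hT⟩ : ∃ T : Finset (Fin (2 * k) → ℕ),
    T = Fintype.piFinset (fun _ : Fin (2 * k) => P) := ⟨_, rfl⟩
  have hTP : ∀ v ∈ T, ∀ i, v i ∈ P := by
    intro v hv
    rw [hT, Fintype.mem_piFinset] at hv
    exact hv
  have hTcard : (#T : ℝ) = (#P : ℝ) ^ (2 * k) := by
    rw [hT, Fintype.card_piFinset, prod_const, card_univ, Fintype.card_fin]
    push_cast
    rfl
  have hpsi : ∀ (D : ℤ) (v : Fin (2 * k) → ℕ), ∏ i, psi D (v i) = psi D (∏ i, v i) := by
    intro D v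
    induction (univ : Finset (Fin (2 * k))) using Finset.induction_on with
    | empty => simp [psi]
    | insert a s ha ih => rw [prod_insert ha, prod_insert ha, ih, psi_mul_right]
  have hexp : ∀ D : ℤ, (∑ p ∈ P, c p * (psi D p : ℝ)) ^ (2 * k) =
      ∑ v ∈ T, (∏ i, c (v i)) * (psi D (∏ i, v i) : ℝ) := by
    intro D
    have h1 : (∑ p ∈ P, c p * (psi D p : ℝ)) ^ (2 * k) =
        ∏ _i : Fin (2 * k), ∑ p ∈ P, c p * (psi D p : ℝ) := by
      rw [prod_const, card_univ, Fintype.card_fin]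
    rw [h1, prod_univ_sum, hT]
    refine sum_congr rfl fun v _ => ?_
    rw [prod_mul_distrib, ← hpsi]
    push_cast
    rfl
  have hsub : DD ⊆ Icc (-(Y : ℤ)) Y := by
    intro D hDD
    have := hD D hDD
    rw [mem_Icc]
    omega
  have h1 : (#DD : ℝ) * V ^ (2 * k) ≤
      ∑ D ∈ Icc (-(Y : ℤ)) Y, (∑ p ∈ P, c p * (psi D p : ℝ)) ^ (2 * k) := by
    have h2 : (#DD : ℝ) * V ^ (2 * k) = ∑ D ∈ DD, V ^ (2 * k) := by
      rw [sum_const, nsmul_eq_mul]
    rw [h2]
    refine (sum_le_sum fun D hDD => ?_).trans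
      (sum_le_sum_of_subset_of_nonneg hsub fun D _ _ => ?_)
    · have h3 := pow_le_pow_left₀ hV (h D hDD) (2 * k)
      rw [(even_two_mul k).pow_abs] at h3
      exact h3
    · exact (even_two_mul k).pow_nonneg _
  refine h1.trans ?_
  simp only [hexp]
  rw [sum_comm]
  have hcv : ∀ v ∈ T, |∏ i, c (v i)| ≤ 1 := by
    intro v hv
    rw [abs_prod]
    exact prod_le_one (fun i _ => abs_nonneg _) fun i _ => hc _ (hTP v hv i)
  have hterm : ∀ v ∈ T, ∑ D ∈ Icc (-(Y : ℤ)) Y, (∏ i, c (v i)) * (psi D (∏ i, v i) : ℝ) ≤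
      (if IsSquare (∏ i, v i) then (2 * (Y : ℝ) + 1) else 0) + (x : ℝ) ^ (2 * k) := by
    intro v hv
    rw [← mul_sum]
    have h2 : (∏ i, c (v i)) * ∑ D ∈ Icc (-(Y : ℤ)) Y, (psi D (∏ i, v i) : ℝ) ≤
        |∑ D ∈ Icc (-(Y : ℤ)) Y, (psi D (∏ i, v i) : ℝ)| := by
      refine (le_abs_self _).trans ?_
      rw [abs_mul]
      exact mul_le_of_le_one_left (abs_nonneg _) (hcv v hv)
    refine h2.trans ?_
    have hx0 : (0 : ℝ) ≤ (x : ℝ) ^ (2 * k) := by positivity
    split_ifs with hsq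
    · have h3 : |∑ D ∈ Icc (-(Y : ℤ)) Y, (psi D (∏ i, v i) : ℝ)| ≤ 2 * (Y : ℝ) + 1 := by
        refine (abs_sum_le_sum_abs _ _).trans ?_
        have h4 : ∀ D ∈ Icc (-(Y : ℤ)) Y, |(psi D (∏ i, v i) : ℝ)| ≤ 1 := by
          intro D _
          exact_mod_cast psi_abs_le D _
        refine (sum_le_sum h4).trans (le_of_eq ?_)
        rw [sum_const, Int.card_Icc, nsmul_eq_mul, mul_one]
        have h5 : ((Y : ℤ) + 1 - -(Y : ℤ)).toNat = 2 * Y + 1 := by omega
        rw [h5]
        push_cast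
        rfl
      linarith
    · have hodd : Odd (∏ i, v i) := by
        refine Finset.prod_induction _ Odd (fun a b ha hb => ha.mul hb) odd_one fun i _ =>
          (hP _ (hTP v hv i)).2.1
      have h3 : |∑ D ∈ Icc (-(Y : ℤ)) Y, (psi D (∏ i, v i) : ℝ)| ≤ ((∏ i, v i : ℕ) : ℝ) := by
        have := sum_disc hodd hsq Y
        exact_mod_cast this
      have h4 : ∏ i, v i ≤ x ^ (2 * k) := by
        have := prod_le_pow_card (univ : Finset (Fin (2 * k))) v x
          fun i _ => (hP _ (hTP v hv i)).2.2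
        rwa [card_univ, Fintype.card_fin] at this
      have h5 : ((∏ i, v i : ℕ) : ℝ) ≤ (x : ℝ) ^ (2 * k) := by exact_mod_cast h4
      linarith
  refine (sum_le_sum hterm).trans ?_
  rw [sum_add_distrib, sum_const, nsmul_eq_mul, hTcard]
  have h2 : ∑ v ∈ T, (if IsSquare (∏ i, v i) then (2 * (Y : ℝ) + 1) else 0) ≤
      (k : ℝ) ^ (2 * k) * (#P : ℝ) ^ k * (2 * Y + 1) := by
    rw [← sum_filter, sum_const, nsmul_eq_mul, hT]
    refine mul_le_mul_of_nonneg_right ?_ (by positivity)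
    exact_mod_cast card_sq k P fun p hp => (hP p hp).1
  linarith

end Pool.Agent.Helper80.TL
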