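import Pool.Agent.Helper16.TL.Gen
import Pool.Agent.Helper70.TW.Freq

set_option autoImplicit false

/-!
# The twist law for an arbitrary property of the number of points
-/

namespace Pool.Agent.Helper80.TL

open Finset Pool.Agent.Helper28.Koblitz Pool.Agent.Helper70.TW Pool.Agent.Helper16.TL

open Classical in
/-- The indicator of a property. -/
noncomputable def iQ (Q : ℕ → Prop) (N : ℕ) : ℝ := if Q N then 1 else 0

theorem iQ_nonneg (Q : ℕ → Prop) (N : ℕ) : 0 ≤ iQ Q N := by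
  unfold iQ; split_ifs <;> norm_num

theorem iQ_le_one (Q : ℕ → Prop) (N : ℕ) : iQ Q N ≤ 1 := by
  unfold iQ; split_ifs <;> norm_num

open Classical in
/-- The number of the primes `p ≤ x`, `p ∤ Δ`, such that `|E(𝔽_p)|` has the property `Q`. -/
noncomputable def cntQ (E : WeierstrassCurve ℤ) (Q : ℕ → Prop) (x : ℕ) : ℕ :=
  ((range (x + 1)).filter (fun p : ℕ => p.Prime ∧ ¬ (((p : ℕ) : ℤ) ∣ E.Δ) ∧
    Q (numPts E p))).card

open Classical in
/-- The mean over the two twists of the numbers of the primes `p ≤ x`, `p ∤ 6Δ`, such that the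
number of points has the property `Q`. -/
noncomputable def meanQ (E : WeierstrassCurve ℤ) (Q : ℕ → Prop) (x : ℕ) : ℝ :=
  ((((goodP E x).filter (fun p : ℕ => Q (numPts E p))).card : ℝ) +
    (((goodP E x).filter (fun p : ℕ => Q (2 * p + 2 - numPts E p))).card : ℝ)) / 2

theorem meanQ_eq (E : WeierstrassCurve ℤ) (Q : ℕ → Prop) (x : ℕ) :
    meanQ E Q x = ∑ p ∈ goodP E x, (iQ Q (numPts E p) + iQ Q (2 * p + 2 - numPts E p)) / 2 := by
  classical
  unfold meanQ iQ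
  rw [Finset.card_filter, Finset.card_filter, ← Finset.sum_div, Finset.sum_add_distrib]
  push_cast
  rfl

/-- The coefficients. -/
noncomputable def cQ (E : WeierstrassCurve ℤ) (Q : ℕ → Prop) (p : ℕ) : ℝ :=
  iQ Q (numPts E p) - iQ Q (2 * p + 2 - numPts E p)

theorem cQ_abs (E : WeierstrassCurve ℤ) (Q : ℕ → Prop) (p : ℕ) : |cQ E Q p| ≤ 1 := by
  unfold cQ
  rw [abs_le]
  have h1 := iQ_nonneg Q (numPts E p)
  have h2 := iQ_le_one Q (numPts E p)
  have h3 := iQ_nonneg Q (2 * p + 2 - numPts E p)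
  have h4 := iQ_le_one Q (2 * p + 2 - numPts E p)
  constructor <;> linarith

/-- The values at one prime. -/
theorem iQ_twist (E : WeierstrassCurve ℤ) (Q : ℕ → Prop) {D : ℤ} {x p : ℕ} (hp : p ∈ goodP E x)
    (hD : ¬ ((p : ℤ) ∣ D)) :
    iQ Q (numPts (quadTwist E D) p) =
      (((psi D p : ℤ) : ℝ) ^ 2 * (iQ Q (numPts E p) + iQ Q (2 * p + 2 - numPts E p)) +
        ((psi D p : ℤ) : ℝ) * cQ E Q p) / 2 := by
  obtain ⟨-, hpr, h2, h3, hodd, -⟩ := goodP_mem hp
  have : Fact p.Prime := ⟨hpr⟩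
  have hD0 : (D : ZMod p) ≠ 0 := by
    rwa [Ne, ZMod.intCast_zmod_eq_zero_iff_dvd]
  have hpsi : psi D p = legendreSym p D := by
    rw [psi_odd hodd, jacobiSym.legendreSym.to_jacobiSym]
  unfold cQ
  by_cases hsq : IsSquare (D : ZMod p)
  · rw [numPts_quadTwist_of_isSquare E h2 h3 hD0 hsq, hpsi, (legendreSym.eq_one_iff p hD0).2 hsq]
    push_cast
    ring
  · have h := numPts_quadTwist_add E h2 h3 hsq
    have h' : numPts (quadTwist E D) p = 2 * p + 2 - numPts E p := by omega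
    rw [h', hpsi, (legendreSym.eq_neg_one_iff p).2 hsq]
    push_cast
    ring

/-- The count for a twist. -/
theorem cntQ_twist (E : WeierstrassCurve ℤ) (Q : ℕ → Prop) (D : ℤ) (x : ℕ) :
    (cntQ (quadTwist E D) Q x : ℝ) =
      ∑ p ∈ goodP E x, (((psi D p : ℤ) : ℝ) ^ 2 *
        (iQ Q (numPts E p) + iQ Q (2 * p + 2 - numPts E p)) +
        ((psi D p : ℤ) : ℝ) * cQ E Q p) / 2 := by
  classical
  have h1 : ((Finset.range (x + 1)).filter (fun p : ℕ => p.Prime ∧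
      ¬ (((p : ℕ) : ℤ) ∣ (quadTwist E D).Δ) ∧ Q (numPts (quadTwist E D) p))) =
      (goodP E x).filter (fun p : ℕ => ¬ ((p : ℤ) ∣ D) ∧ Q (numPts (quadTwist E D) p)) := by
    ext p
    unfold goodP
    rw [mem_filter, mem_filter, mem_filter, quadTwist_disc]
    constructor
    · rintro ⟨h1, h2, h3, h4⟩
      refine ⟨⟨h1, h2, ?_⟩, ?_, h4⟩
      · intro h
        apply h3
        have : (6 : ℤ) ^ 12 * D ^ 6 * E.Δ = (6 * E.Δ) * (6 ^ 11 * D ^ 6) := by ring
        rw [this]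
        exact Dvd.dvd.mul_right h _
      · intro h
        apply h3
        have : (6 : ℤ) ^ 12 * D ^ 6 * E.Δ = D * (6 ^ 12 * D ^ 5 * E.Δ) := by ring
        rw [this]
        exact Dvd.dvd.mul_right h _
    · rintro ⟨⟨h1, h2, h3⟩, h4, h5⟩
      refine ⟨h1, h2, ?_, h5⟩
      intro h
      have hpr : Prime (p : ℤ) := Nat.prime_iff_prime_int.1 h2
      rcases hpr.dvd_or_dvd h with h | h
      · rcases hpr.dvd_or_dvd h with h | h
        · exact h3 (Dvd.dvd.mul_right (hpr.dvd_of_dvd_pow h) _)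
        · exact h4 (hpr.dvd_of_dvd_pow h)
      · exact h3 (Dvd.dvd.mul_left h _)
  have h2 : cntQ (quadTwist E D) Q x = ((goodP E x).filter (fun p : ℕ =>
      ¬ ((p : ℤ) ∣ D) ∧ Q (numPts (quadTwist E D) p))).card := by
    rw [← h1]
    unfold cntQ
    congr
  rw [h2, Finset.card_filter]
  push_cast
  refine Finset.sum_congr rfl fun p hp => ?_
  by_cases hD : (p : ℤ) ∣ D
  · obtain ⟨-, hpr, -, -, hodd, -⟩ := goodP_mem hp
    rw [psi_eq_zero_of_dvd hpr hodd hD, if_neg (fun h => h.1 hD)]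
    simp
  · rw [← iQ_twist E Q hp hD]
    unfold iQ
    by_cases h : Q (numPts (quadTwist E D) p)
    · rw [if_pos ⟨hD, h⟩, if_pos h]
    · rw [if_neg (fun h' => h h'.2), if_neg h]

/-- The difference of the count of a twist and the mean. -/
theorem abs_sub_meanQ_le (E : WeierstrassCurve ℤ) (Q : ℕ → Prop) (D : ℤ) (x : ℕ) :
    |(cntQ (quadTwist E D) Q x : ℝ) - meanQ E Q x| ≤
      |∑ p ∈ goodP E x, cQ E Q p * ((psi D p : ℤ) : ℝ)| / 2 +
        (((goodP E x).filter (fun p : ℕ => (p : ℤ) ∣ D)).card : ℝ) := by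
  classical
  rw [cntQ_twist, meanQ_eq, ← Finset.sum_sub_distrib]
  have h1 : ∀ p ∈ goodP E x, (((psi D p : ℤ) : ℝ) ^ 2 *
        (iQ Q (numPts E p) + iQ Q (2 * p + 2 - numPts E p)) +
        ((psi D p : ℤ) : ℝ) * cQ E Q p) / 2 -
        (iQ Q (numPts E p) + iQ Q (2 * p + 2 - numPts E p)) / 2 =
        (cQ E Q p * ((psi D p : ℤ) : ℝ)) / 2 + -((if (p : ℤ) ∣ D then
        (iQ Q (numPts E p) + iQ Q (2 * p + 2 - numPts E p)) / 2 else 0)) := by
    intro p hp
    obtain ⟨-, hpr, h2, h3, hodd, -⟩ := goodP_mem hp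
    have : Fact p.Prime := ⟨hpr⟩
    by_cases h : (p : ℤ) ∣ D
    · rw [if_pos h, psi_eq_zero_of_dvd hpr hodd h]
      push_cast
      ring
    · rw [if_neg h]
      have hD0 : (D : ZMod p) ≠ 0 := by
        rwa [Ne, ZMod.intCast_zmod_eq_zero_iff_dvd]
      have hsq : ((psi D p : ℤ) : ℝ) ^ 2 = 1 := by
        have hh : psi D p ^ 2 = 1 := by
          rw [psi_odd hodd, ← jacobiSym.legendreSym.to_jacobiSym]
          exact legendreSym.sq_one p hD0
        exact_mod_cast hh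
      rw [hsq]
      ring
  rw [Finset.sum_congr rfl h1, Finset.sum_add_distrib, Finset.sum_neg_distrib, ← Finset.sum_div]
  refine (abs_add_le _ _).trans ?_
  rw [abs_neg, abs_div, abs_two]
  refine add_le_add le_rfl ?_
  rw [← Finset.sum_filter]
  have h2 : ∀ p ∈ (goodP E x).filter (fun p : ℕ => (p : ℤ) ∣ D),
      |(iQ Q (numPts E p) + iQ Q (2 * p + 2 - numPts E p)) / 2| ≤ 1 := by
    intro p _
    have h1 := iQ_nonneg Q (numPts E p)
    have h2 := iQ_le_one Q (numPts E p)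
    have h3 := iQ_nonneg Q (2 * p + 2 - numPts E p)
    have h4 := iQ_le_one Q (2 * p + 2 - numPts E p)
    rw [abs_le]
    constructor <;> linarith
  refine (Finset.abs_sum_le_sum_abs _ _).trans ((Finset.sum_le_sum h2).trans ?_)
  rw [Finset.sum_const, nsmul_eq_mul, mul_one]

/-- few discriminants below a fixed bound for `x₀` -/
theorem card_le_of_small {B : Finset ℤ} {Y X0 X1 K : ℕ} (hY : 1 ≤ Y) (hX0 : 1 ≤ X0)
    (h : X0 ≤ X1) (hB : B ⊆ Icc (-(Y : ℤ)) Y) :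
    (B.card : ℝ) ≤ 3 * (X1 : ℝ) ^ K * ((Y : ℝ) / (X0 : ℝ) ^ K) := by
  have h1 : B.card ≤ 2 * Y + 1 := by
    calc B.card ≤ (Finset.Icc (-(Y : ℤ)) Y).card := Finset.card_le_card hB
      _ = 2 * Y + 1 := by
          rw [Int.card_Icc]
          omega
  have h2 : (B.card : ℝ) ≤ 2 * (Y : ℝ) + 1 := by exact_mod_cast h1
  have hY' : (1 : ℝ) ≤ Y := by exact_mod_cast hY
  have hX0' : (1 : ℝ) ≤ X0 := by exact_mod_cast hX0
  have hs0 : 0 < (X0 : ℝ) ^ K := by positivity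
  have h3 : (X0 : ℝ) ^ K ≤ (X1 : ℝ) ^ K := by
    have : (X0 : ℝ) ≤ X1 := by exact_mod_cast h
    gcongr
  have h4 : (Y : ℝ) ≤ (X1 : ℝ) ^ K * (Y / (X0 : ℝ) ^ K) := by
    rw [← mul_div_assoc, le_div_iff₀ hs0]
    nlinarith
  nlinarith

open Classical in
/-- The twists for which the count is not near the mean at some `x` in the range. -/
noncomputable def badQ (E : WeierstrassCurve ℤ) (Q : ℕ → Prop) (A X0 Y L : ℕ) : Finset ℤ :=
  (Icc (-(Y : ℤ)) Y).filter (fun D => Squarefree D ∧ ∃ x : ℕ, X0 ≤ x ∧ 2 ≤ x ∧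
    (x : ℝ) ≤ Real.exp L ∧
    (x : ℝ) / (Real.log x) ^ A < |(cntQ (quadTwist E D) Q x : ℝ) - meanQ E Q x|)

/-- **The twist law for an arbitrary property of the number of points.** -/
theorem twist_Q (A K : ℕ) : ∃ (C : ℝ) (m : ℕ), 0 < C ∧ ∀ (E : WeierstrassCurve ℤ)
    (Q : ℕ → Prop) (X0 Y L : ℕ), 1 ≤ X0 → 1 ≤ Y → 1 ≤ L →
    ((badQ E Q A X0 Y L).card : ℝ) ≤ C * (Y / (X0 : ℝ) ^ K + (L : ℝ) ^ m) := by
  classical
  obtain ⟨C1, hC1, H1⟩ := small_gen A K
  obtain ⟨C2, hC2, H2⟩ := div_gen (A + 1) K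
  obtain ⟨C3, m, hC3, H3⟩ := large_gen A (3 * K + 12)
  refine ⟨3 * 9 ^ K + C1 + C2 + C3, m, by positivity, ?_⟩
  intro E Q X0 Y L hX0 hY hL
  have hX0' : (1 : ℝ) ≤ X0 := by exact_mod_cast hX0
  have hY' : (1 : ℝ) ≤ Y := by exact_mod_cast hY
  have hL' : (1 : ℝ) ≤ L := by exact_mod_cast hL
  have hs0 : 0 < (X0 : ℝ) ^ K := by positivity
  have hT1 : 0 ≤ (Y : ℝ) / (X0 : ℝ) ^ K := by positivity
  have hT3 : 0 ≤ (L : ℝ) ^ m := by positivity
  obtain ⟨c, hc⟩ : ∃ c : ℕ → ℕ → ℝ, c = fun s p => if s = 0 then cQ E Q p else 0 := ⟨_, rfl⟩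
  have hc0 : ∀ p, c 0 p = cQ E Q p := fun p => by rw [hc]; simp
  have hcabs : ∀ t p, |c t p| ≤ 1 := by
    intro t p
    rw [hc]
    simp only
    split_ifs
    · exact cQ_abs E Q p
    · rw [abs_zero]; norm_num
  have hcsum : ∀ p : ℕ, ∀ T : Finset ℕ, ∑ t ∈ T, (c t p) ^ 2 ≤
      2 * (Nat.log 2 (2 * p + 2) : ℝ) := by
    intro p T
    have h1 : ∑ t ∈ T, (c t p) ^ 2 ≤ 1 := by
      have h2 : ∀ t ∈ T, (c t p) ^ 2 ≤ if t = 0 then (1 : ℝ) else 0 := by
        intro t _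
        rw [hc]
        simp only
        split_ifs with h
        · have h3 := cQ_abs E Q p
          rw [← sq_abs]
          have h4 := abs_nonneg (cQ E Q p)
          nlinarith
        · norm_num
      refine (Finset.sum_le_sum h2).trans ?_
      rw [Finset.sum_ite_eq']
      split_ifs <;> norm_num
    have h2 : 1 ≤ Nat.log 2 (2 * p + 2) := by
      refine Nat.le_log_of_pow_le (by norm_num) ?_
      omega
    have h3 : (1 : ℝ) ≤ (Nat.log 2 (2 * p + 2) : ℝ) := by exact_mod_cast h2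
    linarith
  have hmemY : ∀ D ∈ badQ E Q A X0 Y L, D.natAbs ≤ Y := by
    intro D hD
    have := mem_Icc.1 (mem_filter.1 hD).1
    omega
  have hsqf : ∀ D ∈ badQ E Q A X0 Y L, Squarefree D := fun D hD => (mem_filter.1 hD).2.1
  rcases lt_or_ge X0 9 with h9 | h9
  · have h1 := card_le_of_small (B := badQ E Q A X0 Y L) (K := K) hY hX0 h9.le
      (by unfold badQ; exact filter_subset _ _)
    push_cast at h1
    have h6 : 0 ≤ (C1 + C2 + C3) * ((Y : ℝ) / (X0 : ℝ) ^ K + (L : ℝ) ^ m) := by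
      positivity
    have h8 : 0 ≤ 3 * 9 ^ K * (L : ℝ) ^ m := by positivity
    have h7 : (3 * 9 ^ K + C1 + C2 + C3) * ((Y : ℝ) / (X0 : ℝ) ^ K + (L : ℝ) ^ m) =
      3 * 9 ^ K * (Y / (X0 : ℝ) ^ K) + 3 * 9 ^ K * (L : ℝ) ^ m +
      (C1 + C2 + C3) * ((Y : ℝ) / (X0 : ℝ) ^ K + (L : ℝ) ^ m) := by ring
    rw [h7]
    linarith
  · -- the three sets
    set B1 := (badQ E Q A X0 Y L).filter (fun D => ∃ x t : ℕ, X0 ≤ x ∧ 2 ≤ x ∧
      x ^ (3 * K + 12) ≤ Y ∧
      t ≤ 2 * x + 2 ∧ (x : ℝ) / (Real.log x) ^ A ≤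
        |∑ p ∈ goodP E x, c t p * ((psi D p : ℤ) : ℝ)|) with hB1
    set B2 := (badQ E Q A X0 Y L).filter (fun D => ∃ x t : ℕ, 2 ≤ x ∧ Y ≤ x ^ (3 * K + 12) ∧
      (x : ℝ) ≤ Real.exp L ∧ (x : ℝ) / (Real.log x) ^ A ≤
        |∑ p ∈ goodP E x, c t p * ((psi D p : ℤ) : ℝ)|) with hB2
    set B3 := (badQ E Q A X0 Y L).filter (fun D => ∃ x : ℕ, X0 ≤ x ∧ 2 ≤ x ∧
      (x : ℝ) / (Real.log x) ^ (A + 1) ≤
        (((goodP E x).filter (fun p : ℕ => (p : ℤ) ∣ D)).card : ℝ)) with hB3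
    have hcover : badQ E Q A X0 Y L ⊆ B1 ∪ (B2 ∪ B3) := by
      intro D hD
      obtain ⟨-, -, x, h1, h2, h3, h4⟩ := mem_filter.1 hD
      have hx9 : (9 : ℝ) ≤ x := by exact_mod_cast h9.trans h1
      have hlog2 : 2 ≤ Real.log x := by
        rw [Real.le_log_iff_exp_le (by linarith)]
        have h5 := Real.exp_one_lt_d9
        have h6 : Real.exp 2 = Real.exp 1 * Real.exp 1 := by
          rw [← Real.exp_add]; norm_num
        rw [h6]
        have h7 := Real.exp_pos 1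
        nlinarith
      have hlog0 : 0 < Real.log x := by linarith
      have h5 := abs_sub_meanQ_le E Q D x
      have hsum : ∑ p ∈ goodP E x, cQ E Q p * ((psi D p : ℤ) : ℝ) =
          ∑ p ∈ goodP E x, c 0 p * ((psi D p : ℤ) : ℝ) :=
        Finset.sum_congr rfl fun p _ => by rw [hc0]
      rw [hsum] at h5
      rw [mem_union, mem_union]
      by_cases hS : (x : ℝ) / (Real.log x) ^ A ≤
          |∑ p ∈ goodP E x, c 0 p * ((psi D p : ℤ) : ℝ)|
      · rcases le_total (x ^ (3 * K + 12)) Y with h6 | h6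
        · left
          rw [hB1, mem_filter]
          exact ⟨hD, x, 0, h1, h2, h6, Nat.zero_le _, hS⟩
        · right; left
          rw [hB2, mem_filter]
          exact ⟨hD, x, 0, h2, h6, h3, hS⟩
      · right; right
        push Not at hS
        rw [hB3, mem_filter]
        refine ⟨hD, x, h1, h2, ?_⟩
        have h6 : (x : ℝ) / (Real.log x) ^ (A + 1) ≤ (x : ℝ) / (Real.log x) ^ A / 2 := by
          rw [div_div]
          rw [pow_succ]
          gcongr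
        linarith
    have hc1 : (B1.card : ℝ) ≤ C1 * (Y / (X0 : ℝ) ^ K) := by
      refine H1 (goodP E) ?_ c hcabs Y X0 hX0 hY B1 ?_
      · intro x p hp
        obtain ⟨k1, k2, -, -, k5, -⟩ := goodP_mem hp
        exact ⟨k2, k5, k1⟩
      · intro D hD
        obtain ⟨k1, k2⟩ := mem_filter.1 hD
        exact ⟨hmemY D k1, k2⟩
    have hc3 : (B3.card : ℝ) ≤ C2 * (Y / (X0 : ℝ) ^ K) := by
      refine H2 (goodP E) ?_ Y X0 hX0 B3 ?_
      · intro x p hp
        obtain ⟨k1, k2, -, -, k5, -⟩ := goodP_mem hp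
        exact ⟨k2, k1⟩
      · intro D hD
        obtain ⟨k1, k2⟩ := mem_filter.1 hD
        exact ⟨(hsqf D k1).ne_zero, hmemY D k1, k2⟩
    have hc2 : (B2.card : ℝ) ≤ C3 * (L : ℝ) ^ m := by
      have hQ : ∀ p : ℕ, (p.Prime ∧ ¬ ((p : ℤ) ∣ 6 * E.Δ)) → p ∈ goodP E p := by
        intro p hp
        unfold goodP
        rw [mem_filter, mem_range]
        exact ⟨by omega, hp⟩
      refine H3 (fun p : ℕ => p.Prime ∧ ¬ ((p : ℤ) ∣ 6 * E.Δ)) ?_ c hcabs ?_ Y L hL B2 ?_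
      · intro p hp
        obtain ⟨-, k2, -, -, k5, -⟩ := goodP_mem (hQ p hp)
        exact ⟨k2, k5⟩
      · intro p _ T
        exact hcsum p T
      · intro D hD
        obtain ⟨k1, k2⟩ := mem_filter.1 hD
        exact ⟨hsqf D k1, hmemY D k1, k2⟩
    have hcard : ((badQ E Q A X0 Y L).card : ℝ) ≤ B1.card + (B2.card + B3.card) := by
      have h1 := (Finset.card_le_card hcover).trans (Finset.card_union_le _ _)
      have h2 := Finset.card_union_le B2 B3
      have h3 : (badQ E Q A X0 Y L).card ≤ B1.card + (B2.card + B3.card) := by omega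
      exact_mod_cast h3
    have e3 : 0 ≤ (C1 + C2) * (L : ℝ) ^ m := by positivity
    have e5 : 0 ≤ C3 * ((Y : ℝ) / (X0 : ℝ) ^ K) := by positivity
    have e6 : 0 ≤ 3 * 9 ^ K * ((Y : ℝ) / (X0 : ℝ) ^ K + (L : ℝ) ^ m) := by positivity
    have e7 : (3 * 9 ^ K + C1 + C2 + C3) * ((Y : ℝ) / (X0 : ℝ) ^ K + (L : ℝ) ^ m) =
      3 * 9 ^ K * ((Y : ℝ) / (X0 : ℝ) ^ K + (L : ℝ) ^ m) +
      C1 * ((Y : ℝ) / (X0 : ℝ) ^ K) + C2 * ((Y : ℝ) / (X0 : ℝ) ^ K) + C3 * (L : ℝ) ^ m +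
      ((C1 + C2) * (L : ℝ) ^ m + C3 * ((Y : ℝ) / (X0 : ℝ) ^ K)) := by ring
    rw [e7]
    linarith

/-! ### The frequencies -/

/-- Chebyshev's lower bound. -/
theorem card_primes_ge (x : ℕ) (hx : 16 ≤ x) :
    (x : ℝ) / (2 * Real.log x) ≤ (((Finset.range (x + 1)).filter Nat.Prime).card : ℝ) := by
  have h1 := Chebyshev.psi_ge x
  have h2 := Chebyshev.psi_le_primeCounting_mul_log x
  have h3 : (((Finset.range (x + 1)).filter Nat.Prime).card : ℝ) = (Nat.primeCounting x : ℝ) := by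
    rw [Nat.primeCounting, Nat.primeCounting', Nat.count_eq_card_filter_range]
  have hx' : (16 : ℝ) ≤ x := by exact_mod_cast hx
  have hlog : 0 < Real.log x := Real.log_pos (by linarith)
  rw [h3, div_le_iff₀ (by positivity)]
  have h4 : (0.6931471803 : ℝ) < Real.log 2 := Real.log_two_gt_d9
  -- `log (x + 1) ≤ (x + 1) / 17 + log 17 - 1`
  have h5 : Real.log ((x : ℝ) + 1) ≤ ((x : ℝ) + 1) / 17 - 1 + Real.log 17 := by
    have h6 : Real.log (((x : ℝ) + 1) / 17) ≤ ((x : ℝ) + 1) / 17 - 1 :=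
      Real.log_le_sub_one_of_pos (by positivity)
    rw [Real.log_div (by positivity) (by norm_num)] at h6
    linarith
  have h6 : Real.log 17 ≤ 3 := by
    rw [Real.log_le_iff_le_exp (by norm_num)]
    have h7 := Real.exp_one_gt_d9
    have h8 : Real.exp 3 = Real.exp 1 * Real.exp 1 * Real.exp 1 := by
      rw [← Real.exp_add, ← Real.exp_add]; norm_num
    rw [h8]
    nlinarith [Real.exp_pos 1, mul_pos (Real.exp_pos 1) (Real.exp_pos 1)]
  nlinarith

open Classical in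
/-- **The law of the frequencies.** -/
theorem freq_law (A K : ℕ) : ∃ (C : ℝ) (m : ℕ), 0 < C ∧ ∀ (E : WeierstrassCurve ℤ)
    (t M x0 Y L : ℕ), 1 ≤ x0 → 1 ≤ Y → 1 ≤ L →
    ((badFreq E A t M x0 Y L).card : ℝ) ≤ C * ((Y : ℝ) / (x0 : ℝ) ^ K + (L : ℝ) ^ m) := by
  obtain ⟨C, m, hC, H⟩ := twist_Q (A + 2) K
  refine ⟨3 * 16 ^ K + C, m, by positivity, fun E t M x0 Y L hx0 hY hL => ?_⟩
  have hT1 : 0 ≤ (Y : ℝ) / (x0 : ℝ) ^ K := by positivity
  have hT3 : 0 ≤ (L : ℝ) ^ m := by positivity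
  rcases lt_or_ge x0 16 with h16 | h16
  · have h1 := card_le_of_small (B := badFreq E A t M x0 Y L) (K := K) hY hx0 h16.le
      (by unfold badFreq; exact filter_subset _ _)
    push_cast at h1
    have h6 : 0 ≤ C * ((Y : ℝ) / (x0 : ℝ) ^ K + (L : ℝ) ^ m) := by positivity
    have h8 : 0 ≤ 3 * 16 ^ K * (L : ℝ) ^ m := by positivity
    have h7 : (3 * 16 ^ K + C) * ((Y : ℝ) / (x0 : ℝ) ^ K + (L : ℝ) ^ m) =
      3 * 16 ^ K * (Y / (x0 : ℝ) ^ K) + 3 * 16 ^ K * (L : ℝ) ^ m +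
      C * ((Y : ℝ) / (x0 : ℝ) ^ K + (L : ℝ) ^ m) := by ring
    rw [h7]
    linarith
  · obtain ⟨Q, hQ⟩ : ∃ Q : ℕ → Prop, Q = fun N => ∃ u : ZMod M, IsUnit u ∧
      ((N : ℕ) : ZMod M) = (t : ZMod M) * u := ⟨_, rfl⟩
    have hsub : badFreq E A t M x0 Y L ⊆ badQ E Q (A + 2) x0 Y L := by
      intro D hD
      obtain ⟨h1, h2, x, h3, h4, h5⟩ := mem_filter.1 hD
      refine mem_filter.2 ⟨h1, h2, x, h3, by omega, h4, ?_⟩
      have hx16 : 16 ≤ x := h16.trans h3
      have hx' : (16 : ℝ) ≤ x := by exact_mod_cast hx16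
      have hlog2 : 2 ≤ Real.log x := by
        rw [Real.le_log_iff_exp_le (by linarith)]
        have h5 := Real.exp_one_lt_d9
        have h6 : Real.exp 2 = Real.exp 1 * Real.exp 1 := by
          rw [← Real.exp_add]; norm_num
        rw [h6]
        have h7 := Real.exp_pos 1
        nlinarith
      have hlog0 : 0 < Real.log x := by linarith
      have hpi := card_primes_ge x hx16
      have hpi0 : 0 < (((Finset.range (x + 1)).filter Nat.Prime).card : ℝ) :=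
        lt_of_lt_of_le (by positivity) hpi
      have e1 : unitFreq (quadTwist E D) t M x = (cntQ (quadTwist E D) Q x : ℝ) /
          (((Finset.range (x + 1)).filter Nat.Prime).card : ℝ) := by
        unfold unitFreq cntQ
        rw [hQ]
      have e2 : meanFreq E t M x = meanQ E Q x /
          (((Finset.range (x + 1)).filter Nat.Prime).card : ℝ) := by
        unfold meanFreq meanQ
        rw [hQ, div_div]
      rw [e1, e2, ← sub_div, abs_div, abs_of_pos hpi0, lt_div_iff₀ hpi0] at h5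
      refine lt_of_le_of_lt ?_ h5
      have h6 : (x : ℝ) / (Real.log x) ^ (A + 2) ≤
          1 / (Real.log x) ^ A * ((x : ℝ) / (2 * Real.log x)) := by
        rw [one_div_mul_eq_div, div_div]
        refine div_le_div_of_nonneg_left (by linarith) (by positivity) ?_
        rw [pow_add]
        have h7 : 2 * Real.log x ≤ (Real.log x) ^ 2 := by nlinarith
        rw [mul_comm]
        gcongr
      refine h6.trans ?_
      gcongr
    have h1 : ((badFreq E A t M x0 Y L).card : ℝ) ≤ (badQ E Q (A + 2) x0 Y L).card := by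
      exact_mod_cast card_le_card hsub
    have h2 := H E Q x0 Y L hx0 hY hL
    have h3 : 0 ≤ 3 * 16 ^ K * ((Y : ℝ) / (x0 : ℝ) ^ K + (L : ℝ) ^ m) := by positivity
    have h7 : (3 * 16 ^ K + C) * ((Y : ℝ) / (x0 : ℝ) ^ K + (L : ℝ) ^ m) =
      3 * 16 ^ K * ((Y : ℝ) / (x0 : ℝ) ^ K + (L : ℝ) ^ m) +
      C * ((Y : ℝ) / (x0 : ℝ) ^ K + (L : ℝ) ^ m) := by ring
    rw [h7]
    linarith

end Pool.Agent.Helper80.TL
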