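import Pool.Agent.Helper70.TW.Refined
import Pool.Agent.Helper80.TL.Freq
import Pool.Agent.Helper16.TL.Sqf

set_option autoImplicit false

/-!
# The zero-one law with a small exceptional set
-/

namespace Pool.Agent.Helper80.TL

open Finset Filter Pool.Agent.Helper28.Koblitz Pool.Agent.Helper70.TW

/-- (ii) outside a small set of twists the defects are small at all `x` in `[x₀, e^L]`. -/
def SmallExceptions (A C m : ℕ) (E : WeierstrassCurve ℤ) (t : ℕ) : Prop :=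
  ∀ ε : ℝ, 0 < ε → ∃ n0 : ℕ, ∀ n : ℕ, n0 ≤ n → ∃ x1 : ℕ, ∀ x0 Y L : ℕ, x1 ≤ x0 → 1 ≤ Y → 1 ≤ L →
    ((sel Y (fun D => ∃ x : ℕ, x0 ≤ x ∧ (x : ℝ) ≤ Real.exp L ∧
      ε < |defect (quadTwist E D) t n x|)).card : ℝ) ≤
      C * ((Y : ℝ) / (x0 : ℝ) ^ A + (L : ℝ) ^ m)

theorem abs_one_two' (A C m : ℕ) (F : ℤ → ℕ → ℝ) (Fb : ℕ → ℝ) (hlaw : Law A C m F Fb) (ε : ℝ)
    (hε : 0 < ε) (h : ∃ x2 : ℕ, ∀ x : ℕ, x2 ≤ x → |Fb x| ≤ ε / 2) :
    ∃ x1 : ℕ, ∀ x0 Y L : ℕ, x1 ≤ x0 → 1 ≤ Y → 1 ≤ L →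
      ((sel Y (fun D => ∃ x : ℕ, x0 ≤ x ∧ (x : ℝ) ≤ Real.exp L ∧ ε < |F D x|)).card : ℝ) ≤
      C * ((Y : ℝ) / (x0 : ℝ) ^ A + (L : ℝ) ^ m) := by
  obtain ⟨x2, hx2⟩ := h
  obtain ⟨x1, hx1⟩ := hlaw (ε / 2) (by positivity)
  refine ⟨x1 + x2, fun x0 Y L hx0 hY hL => ?_⟩
  refine (sel_mono (Q := fun D => ∃ x : ℕ, x0 ≤ x ∧ (x : ℝ) ≤ Real.exp L ∧
    ε / 2 < |F D x - Fb x|) ?_).trans (hx1 x0 Y L (by omega) hY hL)
  rintro D - ⟨x, h3, h4, h5⟩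
  refine ⟨x, h3, h4, ?_⟩
  by_contra hcon
  rw [not_lt] at hcon
  have h6 := hx2 x (by omega)
  have h7 : F D x = (F D x - Fb x) + Fb x := by ring
  have h8 : |F D x| ≤ ε := by
    rw [h7]
    exact (abs_add_le _ _).trans (by linarith)
  linarith

theorem abs_two_three' (A C m B K : ℕ) (hA : 1 ≤ A) (hB : 1 ≤ B)
    (hsqf : ∀ Y : ℕ, (Y : ℝ) / 2 ≤ ((sqf Y).card : ℝ)) (F : ℤ → ℕ → ℝ) (ε : ℝ)
    (h : ∃ x1 : ℕ, ∀ x0 Y L : ℕ, x1 ≤ x0 → 1 ≤ Y → 1 ≤ L →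
      ((sel Y (fun D => ∃ x : ℕ, x0 ≤ x ∧ (x : ℝ) ≤ Real.exp L ∧ ε < |F D x|)).card : ℝ) ≤
      C * ((Y : ℝ) / (x0 : ℝ) ^ A + (L : ℝ) ^ m)) :
    ∃ x0 : ℕ, ∀ x : ℕ, x0 ≤ x →
      (Real.log x) ^ K ≤ ((sel (x ^ B) (fun D => |F D x| ≤ ε)).card : ℝ) := by
  classical
  obtain ⟨x1, hx1⟩ := h
  obtain ⟨x2, hx2⟩ := ev_log 4 K
  obtain ⟨x3, hx3⟩ := ev_log (4 * (C * (1 + 2 ^ m) + 1)) m
  refine ⟨x1 + x2 + x3 + 3, fun x hx => ?_⟩
  have hxR : (1 : ℝ) < x := by exact_mod_cast (by omega : 1 < x)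
  have hx0 : (0 : ℝ) < x := by linarith
  have hlog1 : 1 ≤ Real.log x := by
    rw [Real.le_log_iff_exp_le hx0]
    have h3 : (3 : ℝ) ≤ x := by exact_mod_cast (by omega : 3 ≤ x)
    have := Real.exp_one_lt_d9
    linarith
  obtain ⟨L, hL⟩ : ∃ L : ℕ, L = ⌈Real.log x⌉₊ := ⟨_, rfl⟩
  have hL1 : 1 ≤ L := by
    rw [hL, Nat.one_le_ceil_iff]
    linarith
  have hLup : (L : ℝ) ≤ 2 * Real.log x := by
    rw [hL]
    have := (Nat.ceil_lt_add_one (by linarith : (0 : ℝ) ≤ Real.log x)).le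
    linarith
  have hxL : (x : ℝ) ≤ Real.exp L := by
    calc (x : ℝ) = Real.exp (Real.log x) := (Real.exp_log hx0).symm
      _ ≤ _ := Real.exp_le_exp.2 (by rw [hL]; exact Nat.le_ceil _)
  have h1 := hx1 x x L (by omega) (by omega) hL1
  have h2 := hsqf x
  have h3 := hx2 x (by omega)
  have h4 := hx3 x (by omega)
  have hC0 : (0 : ℝ) ≤ C := Nat.cast_nonneg _
  have h5 : (C : ℝ) * ((x : ℝ) / (x : ℝ) ^ A + (L : ℝ) ^ m) ≤ x / 4 := by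
    have e1 : (x : ℝ) / (x : ℝ) ^ A ≤ 1 := by
      rw [div_le_one (by positivity)]
      calc (x : ℝ) = (x : ℝ) ^ 1 := (pow_one _).symm
        _ ≤ (x : ℝ) ^ A := pow_le_pow_right₀ hxR.le hA
    have e2 : (L : ℝ) ^ m ≤ 2 ^ m * (Real.log x) ^ m := by
      rw [← mul_pow]
      exact pow_le_pow_left₀ (Nat.cast_nonneg _) hLup m
    have e3 : (1 : ℝ) ≤ (Real.log x) ^ m := one_le_pow₀ hlog1
    have e4 : (C : ℝ) * ((x : ℝ) / (x : ℝ) ^ A + (L : ℝ) ^ m) ≤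
        C * ((1 + 2 ^ m) * (Real.log x) ^ m) := by
      refine mul_le_mul_of_nonneg_left ?_ hC0
      linarith
    have e5 : (C : ℝ) * ((1 + 2 ^ m) * (Real.log x) ^ m) ≤
        (C * (1 + 2 ^ m) + 1) * (Real.log x) ^ m := by nlinarith
    linarith
  have hsub : sqf x ⊆ sel (x ^ B) (fun D => |F D x| ≤ ε) ∪
      sel x (fun D => ∃ y : ℕ, x ≤ y ∧ (y : ℝ) ≤ Real.exp L ∧ ε < |F D y|) := by
    intro D hD
    unfold sel
    rw [mem_union, mem_filter, mem_filter]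
    by_cases hn : |F D x| ≤ ε
    · left
      refine ⟨?_, hn⟩
      unfold sqf at hD ⊢
      rw [mem_filter, mem_Icc] at hD ⊢
      have hxB : (x : ℤ) ≤ ((x ^ B : ℕ) : ℤ) := by
        exact_mod_cast Nat.le_self_pow (by omega) x
      exact ⟨⟨by linarith [hD.1.1], by linarith [hD.1.2]⟩, hD.2⟩
    · right
      exact ⟨hD, x, le_rfl, hxL, not_le.1 hn⟩
  have h6 := (Finset.card_le_card hsub).trans (Finset.card_union_le _ _)
  have h7 : ((sqf x).card : ℝ) ≤ ((sel (x ^ B) (fun D => |F D x| ≤ ε)).card : ℝ) +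
      ((sel x (fun D => ∃ y : ℕ, x ≤ y ∧ (y : ℝ) ≤ Real.exp L ∧ ε < |F D y|)).card : ℝ) := by
    exact_mod_cast h6
  linarith

theorem count_law (A K : ℕ) : CountLaw A K := by
  classical
  obtain ⟨C, m, -, h⟩ := Pool.Agent.Helper16.TL.twist_gen A K
  refine ⟨C, m, fun E x0 Y L hx0 hY hL => ?_⟩
  refine le_trans ?_ (h E x0 Y L (by omega) hY hL)
  have hsub : badUpTo E A x0 Y L ⊆ Pool.Agent.Helper16.TL.bad E A x0 Y L := by
    intro D hD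
    unfold badUpTo at hD
    rw [mem_filter] at hD
    obtain ⟨h1, h2, t, x, h3, h4, h5⟩ := hD
    unfold Pool.Agent.Helper16.TL.bad
    rw [mem_filter]
    exact ⟨h1, h2, x, t, h3, by omega, h4, h5⟩
  exact_mod_cast Finset.card_le_card hsub

/-- **The zero-one law.** -/
theorem zero_one : ∀ A : ℕ, 1 ≤ A → ∃ C m : ℕ, ∀ B : ℕ, 1 ≤ B →
    ∃ K : ℕ, ∀ (E : WeierstrassCurve ℤ) (t : ℕ),
      (MeanRefined E t ↔ SmallExceptions A C m E t) ∧ (MeanRefined E t ↔ SomeRefined B K E t) := by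
  classical
  have h1 : ∀ K, CountLaw 3 K := count_law 3
  have h2 : ∀ K, FreqLaw 1 K := by
    intro K
    obtain ⟨C, m, -, h⟩ := freq_law 1 K
    exact ⟨C, m, fun E t M x0 Y L hx0 hY hL => h E t M x0 Y L (by omega) hY hL⟩
  have hsqf : ∀ Y : ℕ, (Y : ℝ) / 2 ≤ ((sqf Y).card : ℝ) := by
    intro Y
    unfold sqf
    exact Pool.Agent.Helper16.TL.sqf_count Y
  intro A hA
  obtain ⟨C, m, hl⟩ := defect_law A (h1 A) (h2 A)
  refine ⟨C, m, fun B hB => ?_⟩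
  obtain ⟨C', m', hl'⟩ := defect_law B (h1 B) (h2 B)
  refine ⟨m' + 1, fun E t => ?_⟩
  have h12 : MeanRefined E t → SmallExceptions A C m E t := by
    intro h ε hε
    obtain ⟨n0, hn0⟩ := h (ε / 2) (by positivity)
    exact ⟨n0, fun n hn => abs_one_two' A C m _ _ (hl E t n) ε hε (hn0 n hn)⟩
  have h23 : SmallExceptions A C m E t → SomeRefined B (m' + 1) E t := by
    intro h ε hε
    obtain ⟨n0, hn0⟩ := h ε hε
    exact ⟨n0, fun n hn => abs_two_three' A C m B (m' + 1) hA hB hsqf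
      (fun D x => defect (quadTwist E D) t n x) ε (hn0 n hn)⟩
  have h31 : SomeRefined B (m' + 1) E t → MeanRefined E t := by
    intro h ε hε
    obtain ⟨n0, hn0⟩ := h (ε / 2) (by positivity)
    exact ⟨n0, fun n hn => abs_three_one B C' m' _ _ (hl' E t n) ε hε (hn0 n hn)⟩
  exact ⟨⟨h12, fun h => h31 (h23 h)⟩, ⟨fun h => h23 (h12 h), h31⟩⟩

end Pool.Agent.Helper80.TL
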